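import Pool.Agent.H7.RD.Alg
import Pool.Graph.R_seed8.H239R2.Cover.AMGM

/-!
Ranks of an integer matrix over the fields with `p` elements, and its real rank.
-/

set_option autoImplicit false

namespace Pool.Agent.H7.SP

open Finset Module Pool.Agent.H7.RD

/-- The determinant is divisible by `p` to the power of the rank defect modulo `p`. -/
theorem pow_dvd_det {T : Type*} [Fintype T] [DecidableEq T] (D : Matrix T T ℤ) (p : ℕ)
    [Fact p.Prime] :
    (p : ℤ) ^ (Fintype.card T - (D.map (Int.cast : ℤ → ZMod p)).rank) ∣ D.det := by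
  classical
  set Dp := D.map (Int.cast : ℤ → ZMod p) with hDp
  obtain ⟨S, hS, -, hsp⟩ := exists_rows Dp
  have hc : ∀ a, ∃ c : T → ZMod p, (∑ t ∈ S, c t • Dp.row t) = Dp.row a := by
    intro a
    have h := hsp a
    rw [Submodule.mem_span_image_finset_iff_exists_fun] at h
    obtain ⟨c, hc⟩ := h
    refine ⟨fun t => if h : t ∈ S then c ⟨t, h⟩ else 0, ?_⟩
    rw [← hc, ← Finset.sum_coe_sort S]
    refine sum_congr rfl fun t _ => ?_
    simp
  choose c hc using hc
  let N : Matrix T T ℤ := Matrix.of (fun a t => if a ∉ S ∧ t ∈ S then -((c a t).val : ℤ) else 0)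
  have hNN : N * N = 0 := by
    ext a b
    rw [Matrix.mul_apply]
    refine sum_eq_zero fun t _ => ?_
    show (if a ∉ S ∧ t ∈ S then -((c a t).val : ℤ) else 0) *
      (if t ∉ S ∧ b ∈ S then -((c t b).val : ℤ) else 0) = 0
    by_cases ht : t ∈ S <;> simp [ht]
  have hE : (1 + N) * (1 - N) = 1 := by
    rw [add_mul, mul_sub, mul_sub, one_mul, mul_one, one_mul, hNN]
    abel
  have hunit : IsUnit (1 + N).det := Matrix.isUnit_det_of_right_inverse hE
  set M' := (1 + N) * D with hM'
  have hrow : ∀ a, a ∉ S → ∀ j, (p : ℤ) ∣ M' a j := by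
    intro a ha j
    rw [← ZMod.intCast_zmod_eq_zero_iff_dvd]
    have h1 : M' a j = D a j + ∑ t, (if a ∉ S ∧ t ∈ S then -((c a t).val : ℤ) else 0) * D t j := by
      rw [hM', add_mul, one_mul, Matrix.add_apply, Matrix.mul_apply]
      rfl
    rw [h1]
    push_cast
    have h2 : ∑ t, (((if a ∉ S ∧ t ∈ S then -((c a t).val : ℤ) else 0 : ℤ) : ZMod p) *
        ((D t j : ℤ) : ZMod p)) = -∑ t ∈ S, c a t * ((D t j : ℤ) : ZMod p) := by
      rw [← sum_neg_distrib, ← sum_filter_add_sum_filter_not univ (fun t => t ∈ S)]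
      have e1 : ∑ t ∈ univ.filter (fun t => ¬ t ∈ S),
          (((if a ∉ S ∧ t ∈ S then -((c a t).val : ℤ) else 0 : ℤ) : ZMod p) *
          ((D t j : ℤ) : ZMod p)) = 0 := by
        refine sum_eq_zero fun t ht => ?_
        rw [mem_filter] at ht
        simp [ht.2]
      rw [e1, add_zero]
      have e2 : univ.filter (fun t => t ∈ S) = S := by ext; simp
      rw [e2]
      refine sum_congr rfl fun t ht => ?_
      simp [ha, ht]
    have h3 : ∑ t ∈ S, c a t * ((D t j : ℤ) : ZMod p) = ((D a j : ℤ) : ZMod p) := by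
      have := congrFun (hc a) j
      rw [Finset.sum_apply] at this
      exact this
    have h4 := h2
    rw [h3] at h4
    push_cast at h4
    rw [h4]
    ring
  have hQ : ∀ a j, ∃ q : ℤ, a ∉ S → M' a j = p * q := by
    intro a j
    by_cases ha : a ∈ S
    · exact ⟨0, fun h => absurd ha h⟩
    · obtain ⟨q, hq⟩ := hrow a ha j
      exact ⟨q, fun _ => hq⟩
  choose Q hQ using hQ
  have hfac : M' = Matrix.diagonal (fun a => if a ∈ S then (1 : ℤ) else p) *
      Matrix.of (fun a j => if a ∈ S then M' a j else Q a j) := by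
    ext a j
    rw [Matrix.diagonal_mul]
    by_cases ha : a ∈ S
    · simp [ha]
    · simp [ha, hQ a j ha]
  have hdet : (p : ℤ) ^ (Fintype.card T - Dp.rank) ∣ M'.det := by
    rw [hfac, Matrix.det_mul, Matrix.det_diagonal]
    refine Dvd.dvd.mul_right (dvd_of_eq ?_) _
    rw [prod_ite, prod_const_one, one_mul, prod_const, ← hS]
    congr 1
    have : (univ.filter (fun x => ¬ x ∈ S)).card + (univ.filter (fun x => x ∈ S)).card =
        Fintype.card T := by
      rw [add_comm, card_filter_add_card_filter_not, card_univ]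
    have e2 : univ.filter (fun t => t ∈ S) = S := by ext; simp
    rw [e2] at this
    omega
  rw [hM', Matrix.det_mul] at hdet
  exact (hunit.dvd_mul_left).mp hdet

/-- A form of Hadamard's inequality. -/
theorem det_sq_le {T : Type} [Fintype T] [DecidableEq T] (D : Matrix T T ℤ)
    (h : ∀ a b, |D a b| ≤ 1) : (D.det) ^ 2 ≤ (Fintype.card T : ℤ) ^ Fintype.card T := by
  rcases isEmpty_or_nonempty T with hT | hT
  · rw [Matrix.det_isEmpty]
    simp
  set n := Fintype.card T with hn
  have hn0 : 0 < n := Fintype.card_pos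
  set M : Matrix T T ℝ := D.map (Int.cast : ℤ → ℝ) with hM
  have hdet : M.det = ((D.det : ℤ) : ℝ) := (Int.cast_det (R := ℝ) D).symm
  set τ := (M * M.conjTranspose).trace with hτ
  have hpsd : (M * M.conjTranspose).PosSemidef := Matrix.posSemidef_self_mul_conjTranspose M
  have hτle : τ ≤ (n : ℝ) ^ 2 := by
    have h1 : τ = ∑ a, ∑ b, M a b * M a b := by
      rw [hτ, Matrix.trace]
      refine sum_congr rfl fun a _ => ?_
      rw [Matrix.diag_apply, Matrix.mul_apply]
      refine sum_congr rfl fun b _ => ?_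
      rw [Matrix.conjTranspose_apply, star_trivial]
    rw [h1]
    calc ∑ a, ∑ b, M a b * M a b ≤ ∑ a : T, ∑ b : T, (1 : ℝ) := by
          refine sum_le_sum fun a _ => sum_le_sum fun b _ => ?_
          have h2 : |M a b| ≤ 1 := by
            show |((D a b : ℤ) : ℝ)| ≤ 1
            exact_mod_cast h a b
          have := abs_le.mp h2
          nlinarith
      _ = (n : ℝ) ^ 2 := by simp [hn, sq]
  have hτ0 : 0 ≤ τ := hpsd.trace_nonneg
  rcases hτ0.eq_or_lt with h0 | hpos
  · have h1 : M * M.conjTranspose = 0 := hpsd.trace_eq_zero_iff.mp h0.symm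
    have h2 : M.det * M.det = 0 := by
      have := congrArg Matrix.det h1
      rw [Matrix.det_mul, Matrix.det_conjTranspose, star_trivial, Matrix.det_zero] at this
      exact this
    have h3 : D.det = 0 := by
      have h4 : M.det = 0 := mul_self_eq_zero.mp h2
      rw [hdet] at h4
      exact_mod_cast h4
    rw [h3]
    positivity
  · set s : ℝ := n / τ with hs
    have hs0 : 0 < s := by positivity
    have hpsd2 : (s • (M * M.conjTranspose)).PosSemidef := hpsd.smul hs0.le
    have htr : (s • (M * M.conjTranspose)).trace = Fintype.card T := by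
      rw [Matrix.trace_smul, ← hτ, smul_eq_mul, hs, div_mul_cancel₀ _ hpos.ne']
    have h1 := Pool.Agent.H239R2.Cover.det_le_one_of_trace _ hpsd2 htr
    rw [Matrix.det_smul, Matrix.det_mul, Matrix.det_conjTranspose, star_trivial, ← hn] at h1
    have h2 : M.det ^ 2 ≤ (τ / n) ^ n := by
      have h3 : (τ / n) ^ n * (s ^ n * (M.det * M.det)) ≤ (τ / n) ^ n * 1 :=
        mul_le_mul_of_nonneg_left h1 (by positivity)
      have h4 : (τ / n) ^ n * (s ^ n * (M.det * M.det)) = M.det ^ 2 := by
        rw [← mul_assoc, ← mul_pow, hs]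
        have : τ / n * (n / τ) = 1 := by
          have : (n : ℝ) ≠ 0 := by positivity
          field_simp
        rw [this, one_pow, one_mul, sq]
      rw [h4, mul_one] at h3
      exact h3
    have h5 : (τ / n) ^ n ≤ (n : ℝ) ^ n := by
      refine pow_le_pow_left₀ (by positivity) ?_ n
      rw [div_le_iff₀ (by positivity)]
      nlinarith
    have h6 : ((D.det : ℤ) : ℝ) ^ 2 ≤ (n : ℝ) ^ n := by
      rw [← hdet]
      exact h2.trans h5
    exact_mod_cast h6

end Pool.Agent.H7.SP
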