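import Pool.Agent.H7.SP.Main

/-!
Counting protocols modulo small primes and the log-rank conjecture.
-/

set_option autoImplicit false

namespace Pool.Agent.H7.SP

open Finset Module Pool.Agent.H7.RD Pool.Agent.R934.LR Pool.Agent.H630R2.LR

/-- `CountMod p c F`: there are at most `2 ^ c` rectangles `A i × B i` such that the number of those
which contain `(x, y)` is congruent to `F x y` modulo `p`, for all `x`, `y`. -/
def CountMod (p c : ℕ) {X Y : Type} (F : X → Y → Bool) : Prop :=
  ∃ (m : ℕ) (A : Fin m → X → Bool) (B : Fin m → Y → Bool), m ≤ 2 ^ c ∧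
    ∀ x y, (univ.filter (fun i => A i x = true ∧ B i y = true)).card ≡
      (if F x y then 1 else 0) [MOD p]

theorem CountMod.of_fintype {p c : ℕ} {X Y : Type} {F : X → Y → Bool} {ι : Type*} [Fintype ι]
    (hι : Fintype.card ι ≤ 2 ^ c) (A : ι → X → Bool) (B : ι → Y → Bool)
    (h : ∀ x y, (univ.filter (fun i => A i x = true ∧ B i y = true)).card ≡
      (if F x y then 1 else 0) [MOD p]) : CountMod p c F := by
  classical
  refine ⟨Fintype.card ι, fun i => A ((Fintype.equivFin ι).symm i),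
    fun i => B ((Fintype.equivFin ι).symm i), hι, fun x y => ?_⟩
  have : (univ.filter (fun i => A ((Fintype.equivFin ι).symm i) x = true ∧
      B ((Fintype.equivFin ι).symm i) y = true)).card =
      (univ.filter (fun i => A i x = true ∧ B i y = true)).card := by
    refine card_bij (fun i _ => (Fintype.equivFin ι).symm i) ?_ ?_ ?_
    · intro i hi
      rw [mem_filter] at hi ⊢
      exact ⟨mem_univ _, hi.2⟩
    · intro i _ j _ hij
      exact (Fintype.equivFin ι).symm.injective hij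
    · intro i hi
      rw [mem_filter] at hi
      refine ⟨Fintype.equivFin ι i, ?_, by simp⟩
      rw [mem_filter]
      refine ⟨mem_univ _, ?_⟩
      simpa using hi.2
  show (univ.filter (fun i => A ((Fintype.equivFin ι).symm i) x = true ∧
      B ((Fintype.equivFin ι).symm i) y = true)).card ≡ (if F x y then 1 else 0) [MOD p]
  rw [this]
  exact h x y

section
variable {X Y : Type} [Fintype X] [Fintype Y]

theorem rkp_le_of_countMod (p c : ℕ) (hp : p.Prime) (F : X → Y → Bool) (h : CountMod p c F) :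
    rkp p F ≤ 2 ^ c := by
  have : Fact p.Prime := ⟨hp⟩
  obtain ⟨m, A, B, hm, h⟩ := h
  refine le_trans ?_ hm
  have h1 : Matrix.of (fun (x : X) (y : Y) => if F x y then (1 : ZMod p) else 0) =
      Matrix.of (fun (x : X) (i : Fin m) => if A i x then (1 : ZMod p) else 0) *
      Matrix.of (fun (i : Fin m) (y : Y) => if B i y then (1 : ZMod p) else 0) := by
    ext x y
    rw [Matrix.mul_apply]
    have h2 := h x y
    rw [← ZMod.natCast_eq_natCast_iff] at h2
    have h3 : ((if F x y then 1 else 0 : ℕ) : ZMod p) = if F x y then (1 : ZMod p) else 0 := by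
      split_ifs <;> simp
    rw [Matrix.of_apply, ← h3, ← h2, card_filter, Nat.cast_sum]
    refine sum_congr rfl fun i _ => ?_
    rw [Matrix.of_apply, Matrix.of_apply]
    cases A i x <;> cases B i y <;> simp
  have h4 := Matrix.rank_mul_le_left
    (Matrix.of (fun (x : X) (i : Fin m) => if A i x then (1 : ZMod p) else 0))
    (Matrix.of (fun (i : Fin m) (y : Y) => if B i y then (1 : ZMod p) else 0))
  have h5 := Matrix.rank_le_card_width
    (Matrix.of (fun (x : X) (i : Fin m) => if A i x then (1 : ZMod p) else 0))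
  rw [← h1] at h4
  rw [Fintype.card_fin] at h5
  exact h4.trans h5

theorem countMod_of_rkp_le (p c : ℕ) (hp : p.Prime) (F : X → Y → Bool)
    (h : p * rkp p F ≤ 2 ^ c) : CountMod p c F := by
  classical
  have : Fact p.Prime := ⟨hp⟩
  set M : Matrix X Y (ZMod p) := Matrix.of (fun (x : X) (y : Y) => if F x y then (1 : ZMod p) else 0)
    with hM
  obtain ⟨T, hT, -, hsp⟩ := exists_rows M
  have hc : ∀ a, ∃ c : T → ZMod p, (∑ t, c t • M.row (t : X)) = M.row a := by
    intro a
    have h := hsp a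
    rw [Submodule.mem_span_image_finset_iff_exists_fun] at h
    exact h
  choose c hc using hc
  have hT' : T.card = rkp p F := hT
  refine CountMod.of_fintype (ι := T × Fin p) ?_
    (fun i x => decide ((i.2 : ℕ) < (c x i.1).val)) (fun i y => F i.1 y) ?_
  · rw [Fintype.card_prod, Fintype.card_coe, Fintype.card_fin, hT', mul_comm]
    exact h
  · intro x y
    rw [← ZMod.natCast_eq_natCast_iff]
    have h3 : ((if F x y then 1 else 0 : ℕ) : ZMod p) = M x y := by
      rw [hM, Matrix.of_apply]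
      split_ifs <;> simp
    have h4 : M x y = ∑ t, c x t * M t y := by
      have := congrFun (hc x) y
      rw [Finset.sum_apply] at this
      exact this.symm
    rw [h3, h4, card_filter, Nat.cast_sum, Fintype.sum_prod_type]
    refine sum_congr rfl fun t _ => ?_
    rw [hM, Matrix.of_apply]
    have h5 : ∀ s : Fin p, ((if (decide ((s : ℕ) < (c x t).val)) = true ∧ F t y = true then 1 else 0 :
        ℕ) : ZMod p) = (if (s : ℕ) < (c x t).val then (1 : ZMod p) else 0) *
          (if F t y = true then (1 : ZMod p) else 0) := by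
      intro s
      by_cases hs : (s : ℕ) < (c x t).val <;> by_cases hF : F t y = true <;> simp [hs, hF]
    rw [sum_congr rfl (fun s _ => h5 s), ← sum_mul]
    congr 1
    rw [Fin.sum_univ_eq_sum_range (fun s => if s < (c x t).val then (1 : ZMod p) else 0) p,
      ← sum_filter]
    have h6 : (range p).filter (fun s => s < (c x t).val) = range (c x t).val := by
      ext s
      rw [mem_filter, mem_range, mem_range]
      have := ZMod.val_lt (c x t)
      omega
    rw [h6, sum_const, card_range, nsmul_eq_mul, mul_one, ZMod.natCast_zmod_val]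

end

/-! ### natural logarithms -/

theorem nat_add_pow_le (a b k : ℕ) : (a + b) ^ k ≤ 2 ^ k * (a ^ k + b ^ k) := by
  rcases le_total a b with h | h
  · calc (a + b) ^ k ≤ (2 * b) ^ k := Nat.pow_le_pow_left (by omega) k
      _ = 2 ^ k * b ^ k := mul_pow _ _ _
      _ ≤ _ := Nat.mul_le_mul_left _ (Nat.le_add_left _ _)
  · calc (a + b) ^ k ≤ (2 * a) ^ k := Nat.pow_le_pow_left (by omega) k
      _ = 2 ^ k * a ^ k := mul_pow _ _ _
      _ ≤ _ := Nat.mul_le_mul_left _ (Nat.le_add_right _ _)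

/-- the conjecture with natural logarithms -/
def NatForm : Prop := ∃ C k : ℕ, ∀ (n : ℕ) (F : (Fin n → ZMod 2) → (Fin n → ZMod 2) → Bool),
  Proto F (C * (Nat.log 2 (rk F)) ^ k + C)

theorem natForm_of_logRank (h : LogRank) : NatForm := by
  obtain ⟨C, k, h⟩ := h
  refine ⟨C * 2 ^ k + C, k, fun n F => ?_⟩
  obtain ⟨c, owner, a, b, out, hout, hc⟩ := h n F
  have hP : Proto F c := ⟨owner, a, b, out, hout⟩
  refine hP.mono ?_
  set L := Nat.log 2 (rk F) with hL
  have hlog : Real.logb 2 (rk F : ℝ) ≤ (L + 1 : ℕ) := by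
    rcases Nat.eq_zero_or_pos (rk F) with h0 | h0
    · rw [h0, Nat.cast_zero, Real.logb_zero]
      positivity
    · rw [Real.logb_le_iff_le_rpow (by norm_num) (by exact_mod_cast h0), Real.rpow_natCast]
      have := (Nat.lt_pow_succ_log_self (b := 2) (by norm_num) (rk F)).le
      exact_mod_cast this
  have h1 : (c : ℝ) ≤ C * ((L + 1 : ℕ) : ℝ) ^ k + C := by
    refine hc.trans ?_
    exact add_le_add (mul_le_mul_of_nonneg_left
      (pow_le_pow_left₀ (logb_nonneg (rk F)) hlog k) (Nat.cast_nonneg _)) le_rfl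
  have h2 : c ≤ C * (L + 1) ^ k + C := by exact_mod_cast h1
  have h3 := nat_add_pow_le L 1 k
  rw [one_pow] at h3
  calc c ≤ C * (L + 1) ^ k + C := h2
    _ ≤ C * (2 ^ k * (L ^ k + 1)) + C := Nat.add_le_add_right (Nat.mul_le_mul_left _ h3) _
    _ ≤ (C * 2 ^ k + C) * L ^ k + (C * 2 ^ k + C) := by nlinarith [Nat.zero_le (C * L ^ k)]

theorem logRank_of_natForm (h : NatForm) : LogRank := by
  obtain ⟨C, k, h⟩ := h
  refine ⟨C, k, fun n F => ?_⟩
  obtain ⟨owner, a, b, out, hout⟩ := h n F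
  refine ⟨_, owner, a, b, out, hout, ?_⟩
  have h1 : ((Nat.log 2 (rk F) : ℕ) : ℝ) ≤ Real.logb 2 (rk F : ℝ) := by
    have := Real.natLog_le_logb (rk F) 2
    exact_mod_cast this
  push_cast
  exact add_le_add (mul_le_mul_of_nonneg_left (pow_le_pow_left₀ (Nat.cast_nonneg _) h1 k)
    (Nat.cast_nonneg _)) le_rfl

/-- the conjecture with the maximum `m` of the ranks modulo the small primes -/
def MaxForm : Prop := ∃ C k : ℕ, ∀ (n : ℕ) (F : (Fin n → ZMod 2) → (Fin n → ZMod 2) → Bool) (m : ℕ),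
  (∀ p, p.Prime → p ≤ 2 * Nat.log 2 (rk F) + 2502 → rkp p F ≤ m) →
    Proto F (C * (Nat.log 2 m) ^ k + C)

/-- A function on `n` bits which has short counting protocols modulo all primes in `P n` has a short
deterministic protocol. -/
def CountForm (P : ℕ → Finset ℕ) : Prop :=
  ∃ C k : ℕ, ∀ (n : ℕ) (F : (Fin n → ZMod 2) → (Fin n → ZMod 2) → Bool)
    (c : ℕ), (∀ p ∈ P n, CountMod p c F) → Proto F (C * (c + Nat.log 2 n) ^ k + C)

theorem pow_succ_le (C k a b : ℕ) (h : a ≤ b + 1) :
    C * a ^ k + C ≤ (C * 2 ^ k + C) * b ^ k + (C * 2 ^ k + C) := by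
  have h3 := nat_add_pow_le b 1 k
  rw [one_pow] at h3
  have h4 : a ^ k ≤ (b + 1) ^ k := Nat.pow_le_pow_left h k
  calc C * a ^ k + C ≤ C * (2 ^ k * (b ^ k + 1)) + C :=
        Nat.add_le_add_right (Nat.mul_le_mul_left _ (h4.trans h3)) _
    _ ≤ (C * 2 ^ k + C) * b ^ k + (C * 2 ^ k + C) := by nlinarith [Nat.zero_le (C * b ^ k)]

theorem maxForm_of_natForm (h : NatForm) : MaxForm := by
  obtain ⟨C, k, h⟩ := h
  refine ⟨C * 2 ^ k + C, k, fun n F m hm => (h n F).mono (pow_succ_le C k _ _ ?_)⟩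
  have h1 := rk_le_of_small F m hm
  have h2 : Nat.log 2 (rk F) ≤ Nat.log 2 (2 * m) := Nat.log_mono_right h1
  rcases Nat.eq_zero_or_pos m with h0 | h0
  · have h3 : rk F = 0 := by omega
    rw [h3]
    simp
  · rw [mul_comm, Nat.log_mul_base (by norm_num) (by omega)] at h2
    exact h2

theorem natForm_of_maxForm (h : MaxForm) : NatForm := by
  obtain ⟨C, k, h⟩ := h
  exact ⟨C, k, fun n F => h n F (rk F) (fun p hp _ => rkp_le_rk p hp F)⟩

theorem rk_le_two_pow (n : ℕ) (F : (Fin n → ZMod 2) → (Fin n → ZMod 2) → Bool) :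
    rk F ≤ 2 ^ n := by
  have := Matrix.rank_le_card_width
    (Matrix.of (fun (x y : Fin n → ZMod 2) => if F x y then (1 : ℝ) else 0))
  rw [Fintype.card_fun, ZMod.card, Fintype.card_fin] at this
  exact this

theorem countForm_of_natForm (h : NatForm) (P : ℕ → Finset ℕ) (hP : ∀ n, ∀ p ∈ P n, p.Prime)
    (hprod : ∀ n, 2 ^ n < ∏ p ∈ P n, p) : CountForm P := by
  obtain ⟨C, k, h⟩ := h
  refine ⟨C * 2 ^ k + C, k, fun n F c hc => (h n F).mono (pow_succ_le C k _ _ ?_)⟩
  have h1 : rk F ≤ 2 * 2 ^ c := by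
    by_contra hcon
    push Not at hcon
    have h2 := prod_sq_le F 2 (by omega) (P n) (fun p hp => ⟨hP n p hp, by
      have := rkp_le_of_countMod p c (hP n p hp) F (hc p hp)
      omega⟩)
    have h3 := (Nat.pow_le_pow_iff_left (by norm_num)).mp h2
    have h4 := hprod n
    have h5 := rk_le_two_pow n F
    omega
  have h2 : Nat.log 2 (rk F) ≤ Nat.log 2 (2 * 2 ^ c) := Nat.log_mono_right h1
  rw [← pow_succ', Nat.log_pow (by norm_num)] at h2
  omega

/-- the reduction to `rk F` bits -/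
theorem exists_small (X Y : Type) [Fintype X] [Fintype Y] [Nonempty X] [Nonempty Y]
    (F : X → Y → Bool) (R : ℕ) (hR : rk F ≤ R) :
    ∃ (g : (Fin R → ZMod 2) → X) (h : (Fin R → ZMod 2) → Y)
      (e : X → (Fin R → ZMod 2)) (e' : Y → (Fin R → ZMod 2)),
      ∀ x y, F (g (e x)) (h (e' y)) = F x y := by
  classical
  have key : ∀ (X Y : Type) [Fintype X] [Fintype Y] [Nonempty Y] (F : X → Y → Bool) (R : ℕ),
      rk F ≤ R → ∃ (h : (Fin R → ZMod 2) → Y) (e' : Y → (Fin R → ZMod 2)),
      ∀ x y, F x (h (e' y)) = F x y := by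
    intro X Y _ _ _ F R hR
    obtain ⟨rep, hrep, B, hB, hBc⟩ := Pool.Agent.R533.VC.exists_reps F
    have : Nonempty B := ⟨⟨rep (Classical.arbitrary Y), hB _⟩⟩
    have hBc' : Fintype.card B ≤ 2 ^ R := by
      rw [Fintype.card_coe]
      exact hBc.trans (Nat.pow_le_pow_right (by norm_num) hR)
    obtain ⟨f, e, hfe⟩ := exists_retract B R hBc'
    refine ⟨fun v => (f v : Y), fun y => e ⟨rep y, hB y⟩, fun x y => ?_⟩
    show F x (f (e ⟨rep y, hB y⟩) : Y) = F x y
    rw [hfe]
    exact hrep x y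
  obtain ⟨h, e', hh⟩ := key X Y F R hR
  obtain ⟨g, e, hg⟩ := key Y X (fun y x => F x y) R (by
    have : Matrix.of (fun (y : Y) (x : X) => if F x y then (1 : ℝ) else 0) =
        (Matrix.of (fun (x : X) (y : Y) => if F x y then (1 : ℝ) else 0)).transpose := rfl
    show (Matrix.of (fun (y : Y) (x : X) => if F x y then (1 : ℝ) else 0)).rank ≤ _
    rw [this, Matrix.rank_transpose]
    exact hR)
  refine ⟨g, h, e, e', fun x y => ?_⟩
  rw [hh, hg y x]

theorem natForm_of_countForm (P : ℕ → Finset ℕ) (a b : ℕ)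
    (hP : ∀ n, ∀ p ∈ P n, p.Prime ∧ p ≤ a * (n + 1) ^ b) (h : CountForm P) : NatForm := by
  obtain ⟨C, k, h⟩ := h
  set A := 2 ^ k * ((b + 2) ^ k + (a + b + 1) ^ k) with hA
  refine ⟨C * A + C, k, fun n F => ?_⟩
  obtain ⟨R, hR⟩ : ∃ R, rk F = R := ⟨_, rfl⟩
  obtain ⟨g, f, e, e', hF⟩ := exists_small _ _ F R hR.le
  rw [hR]
  set L := Nat.log 2 R with hL
  set F' : (Fin R → ZMod 2) → (Fin R → ZMod 2) → Bool := fun u v => F (g u) (f v) with hF'
  have hrk : rk F' ≤ R := by
    have : Matrix.of (fun (u v : Fin R → ZMod 2) => if F' u v then (1 : ℝ) else 0) =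
        (Matrix.of (fun (x y : Fin n → ZMod 2) => if F x y then (1 : ℝ) else 0)).submatrix g f := rfl
    show (Matrix.of (fun (u v : Fin R → ZMod 2) => if F' u v then (1 : ℝ) else 0)).rank ≤ R
    rw [this]
    exact (Matrix.rank_submatrix_le _ _ _).trans hR.le
  set c := a + (L + 1) * (b + 1) with hc
  have hcm : ∀ p ∈ P R, CountMod p c F' := by
    intro p hp
    obtain ⟨hpp, hpR⟩ := hP R p hp
    refine countMod_of_rkp_le p c hpp F' ?_
    have h1 : rkp p F' ≤ R := (rkp_le_rk p hpp F').trans hrk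
    have h2 : R + 1 ≤ 2 ^ (L + 1) := Nat.lt_pow_succ_log_self (by norm_num) R
    calc p * rkp p F' ≤ (a * (R + 1) ^ b) * (R + 1) := Nat.mul_le_mul hpR (by omega)
      _ = a * (R + 1) ^ (b + 1) := by ring
      _ ≤ 2 ^ a * (2 ^ (L + 1)) ^ (b + 1) :=
          Nat.mul_le_mul Nat.lt_two_pow_self.le (Nat.pow_le_pow_left h2 _)
      _ = 2 ^ c := by rw [← pow_mul, ← pow_add]
  have hP := h R F' c hcm
  have hP2 := hP.comap e e'
  have h3 : (fun (x y : Fin n → ZMod 2) => F' (e x) (e' y)) = F := by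
    funext x y
    exact hF x y
  rw [h3] at hP2
  refine hP2.mono ?_
  have h4 := nat_add_pow_le ((b + 2) * L) (a + b + 1) k
  have h5 : c + L = (b + 2) * L + (a + b + 1) := by
    rw [hc]
    ring
  rw [h5]
  have h6 : 2 ^ k * (((b + 2) * L) ^ k + (a + b + 1) ^ k) ≤ A * L ^ k + A := by
    rw [hA, mul_pow]
    have h7 : (b + 2) ^ k ≤ (b + 2) ^ k + (a + b + 1) ^ k := Nat.le_add_right _ _
    have h8 : (a + b + 1) ^ k ≤ (b + 2) ^ k + (a + b + 1) ^ k := Nat.le_add_left _ _
    calc 2 ^ k * ((b + 2) ^ k * L ^ k + (a + b + 1) ^ k)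
        ≤ 2 ^ k * (((b + 2) ^ k + (a + b + 1) ^ k) * L ^ k + ((b + 2) ^ k + (a + b + 1) ^ k)) :=
          Nat.mul_le_mul_left _ (Nat.add_le_add (Nat.mul_le_mul_right _ h7) h8)
      _ = _ := by ring
  calc C * ((b + 2) * L + (a + b + 1)) ^ k + C ≤ C * (A * L ^ k + A) + C :=
        Nat.add_le_add_right (Nat.mul_le_mul_left _ (h4.trans h6)) _
    _ ≤ (C * A + C) * L ^ k + (C * A + C) := by nlinarith [Nat.zero_le (C * L ^ k)]

theorem logRank_iff_natForm : LogRank ↔ NatForm := ⟨natForm_of_logRank, logRank_of_natForm⟩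

theorem logRank_iff_maxForm : LogRank ↔ MaxForm :=
  ⟨fun h => maxForm_of_natForm (natForm_of_logRank h),
    fun h => logRank_of_natForm (natForm_of_maxForm h)⟩

theorem logRank_iff_countForm (P : ℕ → Finset ℕ) (a b : ℕ)
    (hP : ∀ n, ∀ p ∈ P n, p.Prime ∧ p ≤ a * (n + 1) ^ b) (hprod : ∀ n, 2 ^ n < ∏ p ∈ P n, p) :
    LogRank ↔ CountForm P :=
  ⟨fun h => countForm_of_natForm (natForm_of_logRank h) P (fun n p hp => (hP n p hp).1) hprod,
    fun h => logRank_of_natForm (natForm_of_countForm P a b hP h)⟩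

theorem two_pow_lt_prod (n : ℕ) :
    2 ^ n < ∏ p ∈ (range (2 * n + 2503)).filter Nat.Prime, p := by
  have h := two_pow_le_primorial_sq (2 * n + 2502) (by omega)
  have h1 : (2 ^ n) ^ 2 < (primorial (2 * n + 2502)) ^ 2 := by
    refine lt_of_lt_of_le ?_ h
    rw [← pow_mul]
    exact Nat.pow_lt_pow_right (by norm_num) (by omega)
  exact (Nat.pow_lt_pow_iff_left (by norm_num)).mp h1

theorem logRank_iff_countForm_primes :
    LogRank ↔ CountForm (fun n => (range (2 * n + 2503)).filter Nat.Prime) := by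
  refine logRank_iff_countForm _ 2502 1 (fun n p hp => ?_) two_pow_lt_prod
  rw [mem_filter, mem_range] at hp
  refine ⟨hp.2, ?_⟩
  rw [pow_one]
  omega

end Pool.Agent.H7.SP
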