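import Mathlib

/-!
A lower bound for the product of the primes up to `n`.
-/

set_option autoImplicit false

namespace Pool.Agent.H7.SP

open Finset Real

theorem two_pow_le_primorial_sq (n : ℕ) (hn : 2500 ≤ n) : 2 ^ n ≤ (primorial n) ^ 2 := by
  have h1 := Chebyshev.theta_ge n
  rw [Chebyshev.theta_eq_log_primorial, Nat.floor_natCast] at h1
  have hP : 0 < (primorial n : ℝ) := by exact_mod_cast primorial_pos n
  set s := √(n : ℝ) with hs
  have hn' : (2500 : ℝ) ≤ n := by exact_mod_cast hn
  have hs50 : 50 ≤ s := by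
    rw [hs]
    refine Real.le_sqrt_of_sq_le ?_
    norm_num
    linarith
  have hsn : s ^ 2 = n := Real.sq_sqrt (by positivity)
  have hlogs : log s ≤ 6 * log 2 - 1 + s / 64 := by
    have e1 : log s = log 64 + log (s / 64) := by
      rw [Real.log_div (by positivity) (by norm_num)]
      ring
    have e2 : log 64 = 6 * log 2 := by
      rw [show (64 : ℝ) = 2 ^ 6 by norm_num, Real.log_pow]
      norm_num
    have e3 : log (s / 64) ≤ s / 64 - 1 := Real.log_le_sub_one_of_pos (by positivity)
    rw [e1, e2]
    linarith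
  have hlogn : log n = 2 * log s := by
    rw [← hsn, Real.log_pow]
    norm_num
  have hlogn1 : log (n + 1) ≤ 2 * log s + 1 := by
    have e1 : log ((n : ℝ) + 1) = log n + log (((n : ℝ) + 1) / n) := by
      rw [Real.log_div (by positivity) (by positivity)]
      ring
    have e2 : log (((n : ℝ) + 1) / n) ≤ ((n : ℝ) + 1) / n - 1 :=
      Real.log_le_sub_one_of_pos (by positivity)
    have e3 : ((n : ℝ) + 1) / n - 1 ≤ 1 := by
      rw [sub_le_iff_le_add, div_le_iff₀ (by positivity)]
      linarith
    rw [e1, hlogn]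
    linarith
  have hl2 := Real.log_two_gt_d9
  have hl2' := Real.log_two_lt_d9
  have hkey : (n : ℝ) / 2 * log 2 ≤ log (primorial n : ℝ) := by
    refine le_trans ?_ h1
    rw [hlogn, ← hsn]
    have h3 : s * log s ≤ s * (6 * log 2 - 1 + s / 64) := mul_le_mul_of_nonneg_left hlogs (by linarith)
    have h4 : s ^ 2 * 0.6931471803 ≤ s ^ 2 * log 2 := mul_le_mul_of_nonneg_left hl2.le (by positivity)
    have h5 : s * log 2 ≤ s * 0.6931471808 := mul_le_mul_of_nonneg_left hl2'.le (by linarith)
    have h6 : log (s ^ 2 + 1) ≤ 2 * log s + 1 := by rw [hsn]; exact hlogn1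
    nlinarith
  have h7 : log ((2 : ℝ) ^ n) ≤ log ((primorial n : ℝ) ^ 2) := by
    rw [Real.log_pow, Real.log_pow]
    push_cast
    linarith
  have h8 := (Real.log_le_log_iff (by positivity) (by positivity)).mp h7
  exact_mod_cast h8

end Pool.Agent.H7.SP
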