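import Pool.Agent.H7.SP.Alg
import Pool.Agent.H7.SP.Prim
import Pool.Agent.H7.RD.Equiv

/-!
The real rank of a Boolean matrix and its ranks modulo primes.
-/

set_option autoImplicit false

namespace Pool.Agent.H7.SP

open Finset Module Pool.Agent.H7.RD Pool.Agent.R934.LR Pool.Agent.H630R2.LR

section
variable {X Y : Type} [Fintype X] [Fintype Y]

/-- The rank over `ZMod p` of the 0/1 matrix of `F`. -/
noncomputable def rkp (p : ℕ) {X Y : Type} [Fintype X] [Fintype Y] (F : X → Y → Bool) : ℕ :=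
  (Matrix.of (fun (x : X) (y : Y) => if F x y then (1 : ZMod p) else 0)).rank

/-- the matrix of integers of `F` -/
def intMat {X Y : Type} (F : X → Y → Bool) : Matrix X Y ℤ :=
  Matrix.of (fun x y => if F x y then 1 else 0)

omit [Fintype X] [Fintype Y] in
theorem map_intMat (K : Type) [Ring K] (F : X → Y → Bool) :
    (intMat F).map (Int.cast : ℤ → K) = Matrix.of (fun x y => if F x y then (1 : K) else 0) := by
  ext x y
  rw [Matrix.map_apply, intMat, Matrix.of_apply, Matrix.of_apply]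
  split_ifs <;> simp

theorem rkp_le_rk (p : ℕ) (hp : p.Prime) (F : X → Y → Bool) : rkp p F ≤ rk F := by
  have : Fact p.Prime := ⟨hp⟩
  have h := rank_le_rank (K := ZMod p) (L := ℝ) (intMat F)
  rw [map_intMat, map_intMat] at h
  exact h

/-- The defects of the ranks modulo different primes are bounded in terms of the real rank. -/
theorem prod_pow_le (F : X → Y → Bool) (P : Finset ℕ) (hP : ∀ p ∈ P, p.Prime) :
    ∏ p ∈ P, p ^ (2 * (rk F - rkp p F)) ≤ (rk F) ^ (rk F) := by
  classical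
  obtain ⟨T, f, hT, hdet⟩ := exists_minor (Matrix.of (fun (x : X) (y : Y) =>
    if F x y then (1 : ℝ) else 0))
  set D : Matrix T T ℤ := (intMat F).submatrix (fun a : T => a.1) f with hD
  have hT' : Fintype.card T = rk F := by rw [Fintype.card_coe]; exact hT
  have h0 : D.det ≠ 0 := by
    intro h
    apply hdet
    have h1 : (Matrix.of (fun (x : X) (y : Y) => if F x y then (1 : ℝ) else 0)).submatrix
        (fun a : T => a.1) f = (Int.castRingHom ℝ).mapMatrix D := by
      rw [← map_intMat ℝ F]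
      rfl
    rw [h1, ← RingHom.map_det, h, map_zero]
  have hdvd : ∀ p ∈ P, ((p : ℤ) ^ (rk F - rkp p F)) ∣ D.det := by
    intro p hp
    have : Fact p.Prime := ⟨hP p hp⟩
    have h1 := pow_dvd_det D p
    refine dvd_trans (pow_dvd_pow _ ?_) h1
    have h2 : (D.map (Int.cast : ℤ → ZMod p)).rank ≤ rkp p F := by
      have h3 : D.map (Int.cast : ℤ → ZMod p) = (Matrix.of (fun (x : X) (y : Y) =>
          if F x y then (1 : ZMod p) else 0)).submatrix (fun a : T => a.1) f := by
        rw [← map_intMat (ZMod p) F]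
        rfl
      rw [h3]
      exact Matrix.rank_submatrix_le _ _ _
    rw [hT']
    omega
  have hprod : (∏ p ∈ P, (p : ℤ) ^ (rk F - rkp p F)) ∣ D.det := by
    refine Finset.prod_dvd_of_coprime ?_ hdvd
    intro p hp q hq hpq
    have : IsCoprime (p : ℤ) (q : ℤ) := by
      rw [Nat.isCoprime_iff_coprime]
      exact (Nat.coprime_primes (hP p hp) (hP q hq)).mpr hpq
    exact this.pow
  have h1 : (∏ p ∈ P, (p : ℤ) ^ (rk F - rkp p F)) ^ 2 ≤ D.det ^ 2 := by
    obtain ⟨c, hc⟩ := hprod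
    rw [hc, mul_pow]
    have h3 : c ≠ 0 := by
      rintro rfl
      rw [mul_zero] at hc
      exact h0 hc
    have h4 : 1 ≤ c ^ 2 := by
      have : 0 < c ^ 2 := by positivity
      omega
    nlinarith [sq_nonneg (∏ p ∈ P, (p : ℤ) ^ (rk F - rkp p F))]
  have h2 := det_sq_le D (by
    intro a b
    rw [hD, Matrix.submatrix_apply, intMat, Matrix.of_apply]
    split_ifs <;> simp)
  rw [hT'] at h2
  have h3 : (∏ p ∈ P, (p : ℤ) ^ (rk F - rkp p F)) ^ 2 =
      ((∏ p ∈ P, p ^ (2 * (rk F - rkp p F)) : ℕ) : ℤ) := by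
    rw [← prod_pow]
    push_cast
    refine prod_congr rfl fun p _ => ?_
    rw [← pow_mul, mul_comm 2]
  rw [h3] at h1
  have h4 := h1.trans h2
  exact_mod_cast h4

/-- The product of the primes for which the defect of the rank is at least `rk F / j`. -/
theorem prod_sq_le (F : X → Y → Bool) (j : ℕ) (hR : 1 ≤ rk F) (P : Finset ℕ)
    (hP : ∀ p ∈ P, p.Prime ∧ rk F ≤ j * (rk F - rkp p F)) :
    (∏ p ∈ P, p) ^ 2 ≤ (rk F) ^ j := by
  have h1 := prod_pow_le F P (fun p hp => (hP p hp).1)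
  have h2 : (∏ p ∈ P, p) ^ (2 * rk F) ≤ (∏ p ∈ P, p ^ (2 * (rk F - rkp p F))) ^ j := by
    rw [← prod_pow, ← prod_pow]
    refine prod_le_prod' fun p hp => ?_
    rw [← pow_mul]
    refine Nat.pow_le_pow_right (hP p hp).1.pos ?_
    have := (hP p hp).2
    calc 2 * rk F ≤ 2 * (j * (rk F - rkp p F)) := Nat.mul_le_mul_left _ this
      _ = _ := by ring
  have h3 : ((∏ p ∈ P, p) ^ 2) ^ (rk F) ≤ ((rk F) ^ j) ^ (rk F) := by
    rw [← pow_mul, ← pow_mul, mul_comm j, pow_mul (rk F)]
    exact h2.trans (Nat.pow_le_pow_left h1 j)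
  exact (Nat.pow_le_pow_iff_left (by omega)).mp h3

/-- Some small prime has a small defect. -/
theorem exists_prime (F : X → Y → Bool) (j : ℕ) (hR : 1 ≤ rk F) :
    ∃ p, p.Prime ∧ p ≤ j * (Nat.log 2 (rk F) + 1) + 2500 ∧ j * (rk F - rkp p F) < rk F := by
  by_contra hcon
  push Not at hcon
  set z := j * (Nat.log 2 (rk F) + 1) + 2500 with hz
  have h1 := prod_sq_le F j hR ((range (z + 1)).filter Nat.Prime) (by
    intro p hp
    rw [mem_filter, mem_range] at hp
    exact ⟨hp.2, hcon p hp.2 (by omega)⟩)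
  have h2 := two_pow_le_primorial_sq z (by omega)
  have h3 : 2 ^ z ≤ (rk F) ^ j := h2.trans h1
  have h4 : (rk F) ^ j ≤ (2 ^ (Nat.log 2 (rk F) + 1)) ^ j :=
    Nat.pow_le_pow_left (Nat.lt_pow_succ_log_self (by norm_num) _).le j
  rw [← pow_mul, mul_comm _ j] at h4
  have h5 := h3.trans h4
  rw [Nat.pow_le_pow_iff_right (by norm_num)] at h5
  omega

/-- If the ranks modulo all small primes are at most `m`, then the real rank is at most `2 m`. -/
theorem rk_le_of_small (F : X → Y → Bool) (m : ℕ)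
    (h : ∀ p, p.Prime → p ≤ 2 * Nat.log 2 (rk F) + 2502 → rkp p F ≤ m) : rk F ≤ 2 * m := by
  rcases Nat.eq_zero_or_pos (rk F) with h0 | h0
  · omega
  obtain ⟨p, hp, hpz, hlt⟩ := exists_prime F 2 h0
  have h1 := h p hp (by omega)
  have h2 := rkp_le_rk p hp F
  omega

end

end Pool.Agent.H7.SP
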