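import Pool.Agent.H7.SP.Main

/-!
Tensor products of affine planes: matrices whose ranks modulo all small primes are smaller than the
real rank by a constant factor.
-/

set_option autoImplicit false

namespace Pool.Agent.H7.SP

open Finset Module Pool.Agent.H7.RD Kronecker

/-- the 0/1 matrix of `F` over `K` -/
def mat (K : Type) [Zero K] [One K] {X Y : Type} (F : X → Y → Bool) : Matrix X Y K :=
  Matrix.of (fun x y => if F x y then (1 : K) else 0)

/-- the tensor product -/
def tens {X Y X' Y' : Type} (F : X → Y → Bool) (G : X' → Y' → Bool) (a : X × X') (b : Y × Y') :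
    Bool := F a.1 b.1 && G a.2 b.2

theorem mat_tens (K : Type) [CommRing K] {X Y X' Y' : Type} (F : X → Y → Bool)
    (G : X' → Y' → Bool) : mat K (tens F G) = mat K F ⊗ₖ mat K G := by
  ext ⟨x, x'⟩ ⟨y, y'⟩
  rw [Matrix.kroneckerMap_apply]
  show (if (F x y && G x' y') = true then (1 : K) else 0) =
    (if F x y = true then (1 : K) else 0) * (if G x' y' = true then (1 : K) else 0)
  cases F x y <;> cases G x' y' <;> simp

theorem exists_fac {K : Type*} [Field K] {α β : Type*} [Fintype α] [Fintype β]
    (M : Matrix α β K) :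
    ∃ (T : Finset α) (U : Matrix α T K), T.card = M.rank ∧
      M = U * M.submatrix (fun t : T => (t : α)) id := by
  obtain ⟨T, hT, -, hsp⟩ := exists_rows M
  have hc : ∀ a, ∃ c : T → K, (∑ t, c t • M.row (t : α)) = M.row a := by
    intro a
    have h := hsp a
    rw [Submodule.mem_span_image_finset_iff_exists_fun] at h
    exact h
  choose c hc using hc
  refine ⟨T, Matrix.of c, hT, ?_⟩
  ext a b
  rw [Matrix.mul_apply]
  have := congrFun (hc a) b
  rw [Finset.sum_apply] at this
  exact this.symm

theorem rank_kronecker_le {K : Type*} [Field K] {α β α' β' : Type*} [Fintype α] [Fintype β]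
    [Fintype α'] [Fintype β'] (M : Matrix α β K) (M' : Matrix α' β' K) :
    (M ⊗ₖ M').rank ≤ M.rank * M'.rank := by
  classical
  obtain ⟨T, U, hT, hM⟩ := exists_fac M
  obtain ⟨T', U', hT', hM'⟩ := exists_fac M'
  have h1 : M ⊗ₖ M' = (U ⊗ₖ U') * ((M.submatrix (fun t : T => (t : α)) id) ⊗ₖ
      (M'.submatrix (fun t : T' => (t : α')) id)) := by
    rw [← Matrix.mul_kronecker_mul, ← hM, ← hM']
  rw [h1]
  refine (Matrix.rank_mul_le_left _ _).trans ?_
  refine (Matrix.rank_le_card_width _).trans ?_
  rw [Fintype.card_prod, Fintype.card_coe, Fintype.card_coe, hT, hT']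

section
variable {X Y X' Y' : Type} [Fintype X] [Fintype Y] [Fintype X'] [Fintype Y']

theorem rkp_tens_le (p : ℕ) (hp : p.Prime) (F : X → Y → Bool) (G : X' → Y' → Bool) :
    rkp p (tens F G) ≤ rkp p F * rkp p G := by
  have : Fact p.Prime := ⟨hp⟩
  have h := rank_kronecker_le (mat (ZMod p) F) (mat (ZMod p) G)
  rw [← mat_tens] at h
  exact h

theorem rkp_le_card (p : ℕ) (hp : p.Prime) (F : X → Y → Bool) : rkp p F ≤ Fintype.card X := by
  have : Fact p.Prime := ⟨hp⟩
  exact Matrix.rank_le_card_height _

/-- full real rank and defects modulo primes -/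
def Good {X Y : Type} [Fintype X] [Fintype Y] [DecidableEq X] (F : X → Y → Bool) (e : ℕ → ℕ) :
    Prop :=
  (∃ N : Matrix Y X ℝ, mat ℝ F * N = 1) ∧
  ∀ p, p.Prime → 4 ^ e p * rkp p F ≤ 3 ^ e p * Fintype.card X

theorem Good.rk_eq [DecidableEq X] {F : X → Y → Bool} {e : ℕ → ℕ} (h : Good F e) :
    rk F = Fintype.card X := by
  obtain ⟨N, hN⟩ := h.1
  refine le_antisymm (Matrix.rank_le_card_height _) ?_
  have h1 := Matrix.rank_mul_le_left (mat ℝ F) N
  rw [hN, Matrix.rank_one] at h1
  exact h1

theorem Good.tens [DecidableEq X] [DecidableEq X'] {F : X → Y → Bool} {G : X' → Y' → Bool}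
    {e e' : ℕ → ℕ} (h : Good F e) (h' : Good G e') : Good (tens F G) (fun p => e p + e' p) := by
  obtain ⟨⟨N, hN⟩, h⟩ := h
  obtain ⟨⟨N', hN'⟩, h'⟩ := h'
  refine ⟨⟨N ⊗ₖ N', ?_⟩, fun p hp => ?_⟩
  · rw [mat_tens, ← Matrix.mul_kronecker_mul, hN, hN', Matrix.one_kronecker_one]
  · have h1 := rkp_tens_le p hp F G
    have h2 := Nat.mul_le_mul (h p hp) (h' p hp)
    rw [Fintype.card_prod, pow_add, pow_add]
    calc 4 ^ e p * 4 ^ e' p * rkp p (SP.tens F G)
        ≤ 4 ^ e p * 4 ^ e' p * (rkp p F * rkp p G) := Nat.mul_le_mul_left _ h1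
      _ = 4 ^ e p * rkp p F * (4 ^ e' p * rkp p G) := by ring
      _ ≤ _ := h2
      _ = _ := by ring

end

/-! ### the affine plane -/

/-- the incidence matrix of the points `(x, y)` of the affine plane over `ZMod p` and the lines
`y = a x + b`, `x = c` -/
def plane (p : ℕ) (P : ZMod p × ZMod p) (l : (ZMod p × ZMod p) ⊕ ZMod p) : Bool :=
  match l with
  | .inl ab => decide (P.2 = ab.1 * P.1 + ab.2)
  | .inr c => decide (P.1 = c)

theorem gram_plane (p : ℕ) [Fact p.Prime] (K : Type) [CommRing K] (P Q : ZMod p × ZMod p) :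
    ∑ l, mat K (plane p) P l * mat K (plane p) Q l = (if P = Q then (p : K) else 0) + 1 := by
  classical
  obtain ⟨x, y⟩ := P
  obtain ⟨x', y'⟩ := Q
  rw [Fintype.sum_sum_type, Fintype.sum_prod_type]
  have h1 : ∀ a : ZMod p, ∑ b : ZMod p, mat K (plane p) (x, y) (.inl (a, b)) *
      mat K (plane p) (x', y') (.inl (a, b)) = if a * (x' - x) = y' - y then 1 else 0 := by
    intro a
    rw [sum_eq_single (y - a * x)]
    · have e1 : mat K (plane p) (x, y) (.inl (a, y - a * x)) = 1 := by
        show (if decide (y = a * x + (y - a * x)) = true then (1 : K) else 0) = 1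
        rw [if_pos]
        rw [decide_eq_true_eq]
        ring
      have e2 : mat K (plane p) (x', y') (.inl (a, y - a * x)) =
          if a * (x' - x) = y' - y then 1 else 0 := by
        show (if decide (y' = a * x' + (y - a * x)) = true then (1 : K) else 0) = _
        by_cases h : a * (x' - x) = y' - y
        · rw [if_pos h, if_pos]
          rw [decide_eq_true_eq]
          linear_combination -h
        · rw [if_neg h, if_neg]
          rw [decide_eq_true_eq]
          intro h'
          apply h
          linear_combination -h'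
      rw [e1, e2, one_mul]
    · intro b _ hb
      have e1 : mat K (plane p) (x, y) (.inl (a, b)) = 0 := by
        show (if decide (y = a * x + b) = true then (1 : K) else 0) = 0
        rw [if_neg]
        rw [decide_eq_true_eq]
        intro h
        apply hb
        rw [h]
        ring
      rw [e1, zero_mul]
    · intro h
      exact absurd (mem_univ _) h
  have h2 : ∑ c : ZMod p, mat K (plane p) (x, y) (.inr c) * mat K (plane p) (x', y') (.inr c) =
      if x = x' then 1 else 0 := by
    rw [sum_eq_single x]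
    · show (if decide (x = x) = true then (1 : K) else 0) *
        (if decide (x' = x) = true then (1 : K) else 0) = _
      by_cases h : x = x'
      · simp [h]
      · have h' : x' ≠ x := fun e => h e.symm
        simp [h, h']
    · intro b _ hb
      show (if decide (x = b) = true then (1 : K) else 0) *
        (if decide (x' = b) = true then (1 : K) else 0) = _
      have : x ≠ b := fun e => hb e.symm
      simp [this]
    · intro h
      exact absurd (mem_univ _) h
  rw [sum_congr rfl (fun a _ => h1 a), h2]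
  by_cases hx : x = x'
  · subst hx
    rw [if_pos rfl]
    by_cases hy : y = y'
    · subst hy
      simp
    · have : ¬ (0 = y' - y) := by
        intro h
        apply hy
        linear_combination h
      have h3 : ¬ ((x, y) = (x, y')) := by
        intro h
        exact hy (Prod.mk.inj h).2
      rw [if_neg h3]
      simp [this]
  · have h3 : ¬ ((x, y) = (x', y')) := by
      intro h
      exact hx (Prod.mk.inj h).1
    have h4 : x' - x ≠ 0 := by
      intro h
      apply hx
      linear_combination -h
    rw [if_neg hx, if_neg h3, sum_eq_single ((y' - y) / (x' - x))]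
    · rw [if_pos (div_mul_cancel₀ _ h4)]
      ring
    · intro a _ ha
      rw [if_neg]
      intro h
      apply ha
      rw [eq_div_iff h4]
      exact h
    · intro h
      exact absurd (mem_univ _) h

theorem rank_add_le' {K α β : Type*} [Field K] [Fintype α] [Fintype β] (M N : Matrix α β K) :
    (M + N).rank ≤ M.rank + N.rank := by
  rw [Matrix.rank, Matrix.rank, Matrix.rank]
  have : LinearMap.range (M + N).mulVecLin ≤ LinearMap.range M.mulVecLin ⊔
      LinearMap.range N.mulVecLin := by
    rintro _ ⟨v, rfl⟩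
    rw [Matrix.mulVecLin_apply, Matrix.add_mulVec]
    exact Submodule.add_mem_sup ⟨v, rfl⟩ ⟨v, rfl⟩
  exact (Submodule.finrank_mono this).trans (Submodule.finrank_add_le_finrank_add_finrank _ _)

theorem card_plane (p : ℕ) [Fact p.Prime] : Fintype.card (ZMod p × ZMod p) = p ^ 2 := by
  rw [Fintype.card_prod, ZMod.card, sq]

theorem rkp_plane (p : ℕ) [Fact p.Prime] : 2 * rkp p (plane p) ≤ p ^ 2 + p + 1 := by
  set M : Matrix (ZMod p × ZMod p) ((ZMod p × ZMod p) ⊕ ZMod p) (ZMod p) := mat (ZMod p) (plane p)
    with hM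
  have hMr : M.rank = rkp p (plane p) := rfl
  let E : Matrix (ZMod p × ZMod p) ((ZMod p × ZMod p) ⊕ ZMod p) (ZMod p) :=
    Matrix.vecMulVec (fun _ => 1) (M 0)
  have h0 : (M - E) * M.transpose = 0 := by
    ext P Q
    rw [Matrix.mul_apply]
    have h1 := gram_plane p (ZMod p) P Q
    have h2 := gram_plane p (ZMod p) 0 Q
    rw [CharP.cast_eq_zero, ite_self, zero_add] at h1 h2
    have h3 : ∀ l, (M - E) P l * M.transpose l Q = M P l * M Q l - M 0 l * M Q l := by
      intro l
      rw [Matrix.sub_apply, Matrix.transpose_apply]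
      show (M P l - 1 * M 0 l) * M Q l = _
      ring
    rw [sum_congr rfl (fun l _ => h3 l), sum_sub_distrib]
    rw [hM, h1, h2, sub_self]
    rfl
  have h1 := Matrix.rank_add_rank_le_card_of_mul_eq_zero h0
  rw [Matrix.rank_transpose, Fintype.card_sum, card_plane, ZMod.card] at h1
  have h2 : M.rank ≤ (M - E).rank + 1 := by
    calc M.rank = ((M - E) + E).rank := by rw [sub_add_cancel]
      _ ≤ (M - E).rank + E.rank := rank_add_le' _ _
      _ ≤ _ := Nat.add_le_add_left (Matrix.rank_vecMulVec_le _ _) _
  omega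

theorem good_plane (q : ℕ) [Fact q.Prime] : Good (plane q) (fun p => if p = q then 1 else 0) := by
  classical
  have hq : q.Prime := Fact.out
  have hq0 : (q : ℝ) ≠ 0 := by exact_mod_cast hq.ne_zero
  have hq1 : ((q : ℝ) ^ 2 + q) ≠ 0 := by positivity
  refine ⟨?_, fun p hp => ?_⟩
  · let W : Matrix (ZMod q × ZMod q) (ZMod q × ZMod q) ℝ :=
      Matrix.of (fun P Q => (if P = Q then (1 : ℝ) / q else 0) - 1 / ((q : ℝ) * ((q : ℝ) ^ 2 + q)))
    refine ⟨(mat ℝ (plane q)).transpose * W, ?_⟩
    rw [← Matrix.mul_assoc]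
    ext P Q
    rw [Matrix.mul_apply]
    have h1 : ∀ S, (mat ℝ (plane q) * (mat ℝ (plane q)).transpose) P S =
        (if P = S then (q : ℝ) else 0) + 1 := by
      intro S
      rw [Matrix.mul_apply]
      exact gram_plane q ℝ P S
    have h2 : ∀ S, W S Q = (if S = Q then (1 : ℝ) / q else 0) - 1 / ((q : ℝ) * ((q : ℝ) ^ 2 + q)) := fun _ => rfl
    rw [sum_congr rfl (fun S _ => by rw [h1 S, h2 S])]
    have h3 : ∀ S, ((if P = S then (q : ℝ) else 0) + 1) *
        ((if S = Q then (1 : ℝ) / q else 0) - 1 / ((q : ℝ) * ((q : ℝ) ^ 2 + q))) =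
        (if P = S then (if S = Q then (1 : ℝ) else 0) - 1 / ((q : ℝ) ^ 2 + q) else 0) +
        ((if S = Q then (1 : ℝ) / q else 0) - 1 / ((q : ℝ) * ((q : ℝ) ^ 2 + q))) := by
      intro S
      split_ifs <;> field_simp <;> ring
    rw [sum_congr rfl (fun S _ => h3 S), sum_add_distrib, sum_sub_distrib, sum_ite_eq,
      sum_ite_eq', if_pos (mem_univ _), if_pos (mem_univ _), sum_const, card_univ, card_plane,
      Matrix.one_apply, nsmul_eq_mul]
    push_cast
    split_ifs
    · field_simp
      ring
    · field_simp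
      ring
  · rw [card_plane]
    by_cases hpq : p = q
    · subst hpq
      show 4 ^ (if p = p then 1 else 0) * rkp p (plane p) ≤ 3 ^ (if p = p then 1 else 0) * p ^ 2
      rw [if_pos rfl, pow_one, pow_one]
      have h1 := rkp_plane p
      rcases Nat.lt_or_ge p 3 with h3 | h3
      · have h4 : p = 2 := by
          have := hp.two_le
          omega
        subst h4
        omega
      · nlinarith
    · show 4 ^ (if p = q then 1 else 0) * rkp p (plane q) ≤ 3 ^ (if p = q then 1 else 0) * q ^ 2
      rw [if_neg hpq, pow_zero, pow_zero, one_mul, one_mul]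
      exact (rkp_le_card p hp (plane q)).trans (card_plane q).le

theorem exists_good (P : Finset ℕ) (hP : ∀ p ∈ P, p.Prime) :
    ∃ (X Y : Type) (_ : Fintype X) (_ : Fintype Y) (_ : DecidableEq X) (F : X → Y → Bool),
      Good F (fun p => if p ∈ P then 1 else 0) ∧ Fintype.card X = (∏ p ∈ P, p) ^ 2 := by
  classical
  induction P using Finset.induction_on with
  | empty =>
    refine ⟨Unit, Unit, inferInstance, inferInstance, inferInstance, fun _ _ => true,
      ⟨⟨1, ?_⟩, fun p hp => ?_⟩, by simp⟩
    · rw [Matrix.mul_one]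
      ext a b
      rw [Matrix.one_apply, if_pos (Subsingleton.elim _ _)]
      rfl
    · have := rkp_le_card p hp (fun (_ _ : Unit) => true)
      simpa using this
  | insert q P hq ih =>
    obtain ⟨X, Y, _, _, _, F, hF, hc⟩ := ih (fun p hp => hP p (mem_insert_of_mem hp))
    have : Fact q.Prime := ⟨hP q (mem_insert_self _ _)⟩
    refine ⟨(ZMod q × ZMod q) × X, ((ZMod q × ZMod q) ⊕ ZMod q) × Y, inferInstance, inferInstance,
      inferInstance, tens (plane q) F, ?_, ?_⟩
    · have := (good_plane q).tens hF
      have he : (fun p => (if p = q then 1 else 0) + (if p ∈ P then 1 else 0)) =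
          (fun p => if p ∈ insert q P then 1 else 0) := by
        funext p
        by_cases h1 : p = q
        · subst h1
          simp [hq]
        · simp [h1]
      rw [he] at this
      exact this
    · rw [Fintype.card_prod, card_plane, hc, prod_insert hq, mul_pow]

theorem exists_good_pow (P : Finset ℕ) (hP : ∀ p ∈ P, p.Prime) (t : ℕ) :
    ∃ (X Y : Type) (_ : Fintype X) (_ : Fintype Y) (_ : DecidableEq X) (F : X → Y → Bool),
      Good F (fun p => if p ∈ P then t else 0) ∧ Fintype.card X = (∏ p ∈ P, p) ^ (2 * t) := by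
  classical
  induction t with
  | zero =>
    refine ⟨Unit, Unit, inferInstance, inferInstance, inferInstance, fun _ _ => true,
      ⟨⟨1, ?_⟩, fun p hp => ?_⟩, by simp⟩
    · rw [Matrix.mul_one]
      ext a b
      rw [Matrix.one_apply, if_pos (Subsingleton.elim _ _)]
      rfl
    · have := rkp_le_card p hp (fun (_ _ : Unit) => true)
      simpa using this
  | succ t ih =>
    obtain ⟨X, Y, _, _, _, F, hF, hc⟩ := ih
    obtain ⟨X', Y', _, _, _, F', hF', hc'⟩ := exists_good P hP
    refine ⟨X × X', Y × Y', inferInstance, inferInstance, inferInstance, tens F F', ?_, ?_⟩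
    · have := hF.tens hF'
      have he : (fun p => (if p ∈ P then t else 0) + (if p ∈ P then 1 else 0)) =
          (fun p => if p ∈ P then t + 1 else 0) := by
        funext p
        split_ifs <;> rfl
      rw [he] at this
      exact this
    · rw [Fintype.card_prod, hc, hc', ← pow_add]
      congr 1

/-- Matrices whose ranks modulo all primes up to `z` are smaller than the real rank by a constant
factor. -/
theorem exists_tight (z t : ℕ) :
    ∃ (X Y : Type) (_ : Fintype X) (_ : Fintype Y) (F : X → Y → Bool),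
      rk F = (primorial z) ^ (2 * t) ∧ rk F ≤ 16 ^ (z * t) ∧
      ∀ p, p.Prime → p ≤ z → 4 ^ t * rkp p F ≤ 3 ^ t * rk F := by
  obtain ⟨X, Y, _, _, _, F, hF, hc⟩ := exists_good_pow ((range (z + 1)).filter Nat.Prime)
    (fun p hp => (mem_filter.mp hp).2) t
  have h1 : rk F = (primorial z) ^ (2 * t) := by
    rw [hF.rk_eq, hc]
    rfl
  refine ⟨X, Y, inferInstance, inferInstance, F, h1, ?_, fun p hp hpz => ?_⟩
  · rw [h1]
    calc (primorial z) ^ (2 * t) ≤ (4 ^ z) ^ (2 * t) :=
          Nat.pow_le_pow_left (primorial_le_four_pow z) _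
      _ = 16 ^ (z * t) := by
          rw [← pow_mul, show z * (2 * t) = 2 * (z * t) by ring, pow_mul]
          norm_num
  · have h2 := hF.2 p hp
    have h3 : p ∈ (range (z + 1)).filter Nat.Prime := by
      rw [mem_filter, mem_range]
      exact ⟨by omega, hp⟩
    simp only [if_pos h3] at h2
    rw [hF.rk_eq]
    exact h2

end Pool.Agent.H7.SP
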